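import Pool.Agent.Lib_helper31.GC34.Defs2
import Pool.Agent.Lib_helper92.GC.SUB

/-!
# Blocks M1 and SUB
-/

open scoped BigOperators ComplexOrder Kronecker MatrixOrder
open MeasureTheory Set Matrix

namespace Pool.Agent.Lib_helper92.GC34

open Pool.Agent.GC34 Pool.Agent.RC

variable {ι κ : Type} [Fintype ι] [DecidableEq ι] [Fintype κ] [DecidableEq κ]

theorem isPair_of_strict {C D : Matrix κ κ ℂ} (h : Strict C D) : IsPair C D := by
  refine ⟨?_, h.sub.posSemidef, h.add.posSemidef⟩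
  have h1 : ((1 / 2 : ℝ) • ((C + D) + (C - D))).PosDef :=
    (h.add.add h.sub).smul (by norm_num : (0 : ℝ) < 1 / 2)
  have e : (1 / 2 : ℝ) • ((C + D) + (C - D)) = C := by module
  rwa [e] at h1

theorem ms_eq_mu {p : ℝ} {C D : Matrix κ κ ℂ} (h : IsPair C D) : ms p C D = GC.mu p C D := by
  funext k
  by_cases hk : Even k
  · obtain ⟨m, rfl⟩ := hk
    rcases m with _ | m
    · rw [show (0 + 0 : ℕ) = 0 from rfl, GC.mu_zero, GC.trF_eq_tf _ h.pos.isHermitian]
      unfold ms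
      rw [if_pos rfl]
      rfl
    · have e : m + 1 + (m + 1) = 2 * m + 2 := by ring
      rw [e, GC.mu_even]
      unfold ms
      rw [if_neg (by omega), if_pos ⟨m + 1, by ring⟩]
      congr 1
      omega
  · rw [GC.mu_odd p C D hk]
    unfold ms
    rw [if_neg (by rintro rfl; exact hk (by decide)), if_neg hk]

theorem Hs_eq_Sy {p : ℝ} {C D : Matrix κ κ ℂ} (h : IsPair C D) {x : ℝ} (hx : |x| ≤ 1) :
    Hs p C (x • D) = GC.Sy p C D x := by
  unfold Hs GC.Sy
  rw [GC.trF_eq_tf _ (GC.posSemidef_add h hx).isHermitian,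
    GC.trF_eq_tf _ (GC.posSemidef_sub h hx).isHermitian]
  rfl

theorem hasSum_Hs {p : ℝ} (h3 : 3 < p) (h4 : p < 4) {C D : Matrix κ κ ℂ} (h : IsPair C D)
    {x : ℝ} (hx : |x| ≤ 1) :
    HasSum (fun k => Ring.choose p k * ms p C D k * x ^ k) (Hs p C (x • D)) := by
  rw [Hs_eq_Sy h hx, ms_eq_mu h]
  refine (GC.hasSum_M1 (by linarith) h4 h3.ne' h hx).congr_fun fun k => ?_
  rw [GC.bin_eq_choose]
  ring

theorem Ts_one {p : ℝ} (h3 : 3 < p) (h4 : p < 4) (m : ℕ) :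
    Ts p (1 : Matrix Unit Unit ℂ) 1 m = 1 := by
  have h0 : 0 < p := by linarith
  rcases m with _ | m
  · exact T2_one p h0 h4
  · have e : Ts p (1 : Matrix Unit Unit ℂ) 1 (m + 1) =
        In p (1 : Matrix Unit Unit ℂ) 1 (2 * (m + 2)) / bet p (2 * (m + 2)) := rfl
    rw [e, In_one, div_self]
    apply (bet_pos p _ h0 _).ne'
    push_cast
    have : (0 : ℝ) ≤ m := Nat.cast_nonneg m
    linarith

theorem summable_bin_even {p : ℝ} (h3 : 3 < p) (h4 : p < 4) :
    Summable fun m : ℕ => |GC.bin p (2 * m)| := by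
  rw [← summable_nat_add_iff 1]
  have h1 := (GC.weights (by linarith) h4 h3.ne' pair_one).summable.abs
  refine h1.congr fun m => ?_
  rw [Ts_one h3 h4, mul_one]
  rfl

theorem summable_bin_odd {p : ℝ} (h3 : 3 < p) (h4 : p < 4) :
    Summable fun m : ℕ => |GC.bin p (2 * m + 1)| := by
  rw [← summable_nat_add_iff 2]
  have h2 := (summable_nat_add_iff 2).2 (summable_bin_even h3 h4)
  apply Summable.of_nonneg_of_le (fun _ => abs_nonneg _) (fun m => ?_) h2
  rw [GC.bin_succ, abs_div, abs_mul]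
  have hk : (0 : ℝ) < ((2 * (m + 2) : ℕ) : ℝ) + 1 := by positivity
  rw [abs_of_pos hk, div_le_iff₀ hk]
  apply mul_le_mul_of_nonneg_left _ (abs_nonneg _)
  rw [abs_le]
  push_cast
  have : (0 : ℝ) ≤ m := Nat.cast_nonneg m
  constructor <;> linarith

theorem summable_choose {p : ℝ} (h3 : 3 < p) (h4 : p < 4) :
    Summable fun k : ℕ => |Ring.choose p k| := by
  have h5 : HasSum (fun k => |GC.bin p k|) _ :=
    HasSum.even_add_odd (summable_bin_even h3 h4).hasSum (summable_bin_odd h3 h4).hasSum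
  have e : (fun k : ℕ => |Ring.choose p k|) = fun k => |GC.bin p k| := by
    funext k
    rw [GC.bin_eq_choose]
  rw [e]
  exact h5.summable

theorem ms_bdd {p : ℝ} (h3 : 3 < p) (h4 : p < 4) {C D : Matrix κ κ ℂ} (h : IsPair C D) :
    ∃ K : ℝ, ∀ k, |ms p C D k| ≤ K := by
  rw [ms_eq_mu h]
  exact GC.exists_mu_bdd (by linarith) h4 h

/-- complex binomial series -/
theorem bin_hasSum_complex (q : ℝ) {l r : ℝ} (hr : 0 < r) (hl : |l| * r < 1) {z : ℂ}
    (hz : ‖z‖ = r) :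
    HasSum (fun k : ℕ => ((GC.bin q k * l ^ k : ℝ) : ℂ) * z ^ k) ((1 + l * z) ^ (q : ℂ)) := by
  have h1 := Complex.one_add_cpow_hasFPowerSeriesOnBall_zero (a := (q : ℂ))
  have hy : ‖(l : ℂ) * z‖ < 1 := by
    rw [norm_mul, hz, Complex.norm_real, Real.norm_eq_abs]
    exact hl
  have hx' : (l : ℂ) * z ∈ Metric.eball (0 : ℂ) 1 := by
    generalize (l : ℂ) * z = y at hy
    simpa [enorm_eq_nnnorm] using! hy
  have h3 := h1.hasSum hx'
  simp only [zero_add] at h3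
  refine h3.congr_fun fun k => ?_
  rw [binomialSeries_apply, GC.bin_eq_choose]
  simp only [List.ofFn_const, List.prod_replicate, smul_eq_mul]
  rw [← Complex.ofReal_choose, mul_pow]
  push_cast
  ring

theorem summable_bin_norm (q : ℝ) {l r : ℝ} (hr : 0 < r) (hl : |l| * r < 1) :
    Summable fun k : ℕ => ‖((GC.bin q k * l ^ k : ℝ) : ℂ)‖ * r ^ k := by
  have hx : |l * r| < 1 := by rwa [abs_mul, abs_of_pos hr]
  refine (GC.bin_hasSum q hx).1.congr fun k => ?_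
  rw [Complex.norm_real, Real.norm_eq_abs, abs_mul, abs_mul, mul_pow, abs_mul, abs_pow, abs_pow,
    abs_of_pos hr]
  ring

theorem abs_lt_one_of {l r : ℝ} (hr : 1 < r) (hl : |l| * r < 1) : |l| < 1 := by
  have : |l| * 1 ≤ |l| * r := mul_le_mul_of_nonneg_left hr.le (abs_nonneg _)
  linarith

theorem cell_of_hasSum {m : ℕ → ℝ} {r K : ℝ} (hr : 1 < r) (hK : ∀ k, |m k| ≤ K)
    {a : ℕ → ℝ} {f : ℂ → ℂ} {s : ℝ} (hs : Summable fun k => ‖((a k : ℝ) : ℂ)‖ * r ^ k)
    (hf : ∀ θ, HasSum (fun k => ((a k : ℝ) : ℂ) * (cz r θ) ^ k) (f (cz r θ)))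
    (h : HasSum (fun k => a k * m k) s) : cell m r f = ((s : ℝ) : ℂ) := by
  rw [cell_eq_tsum hr hK hs hf, ← h.tsum_eq, Complex.ofReal_tsum]
  congr 1
  funext k
  push_cast
  ring

theorem sub0 {p : ℝ} (h3 : 3 < p) (h4 : p < 4) {C D : Matrix κ κ ℂ} (h : Strict C D) {r lam : ℝ}
    (hr : 1 < r) (hl : |lam| * r < 1) :
    cell (ms p C D) r (fun z => (1 + lam * z) ^ (p : ℂ)) =
      (((tf (fun x => x ^ p) (C + lam • D) + tf (fun x => x ^ p) (C - lam • D)) / 2 : ℝ) : ℂ) := by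
  have hp := isPair_of_strict h
  have hl1 := abs_lt_one_of hr hl
  have hr0 : 0 < r := by linarith
  obtain ⟨K, hK⟩ := ms_bdd h3 h4 hp
  apply cell_of_hasSum hr hK (a := fun k => GC.bin p k * lam ^ k)
    (summable_bin_norm p hr0 hl) (fun θ => bin_hasSum_complex p hr0 hl (norm_cz hr0 θ))
  have h1 := GC.hasSum_M1 (by linarith) h4 h3.ne' hp hl1.le
  rw [← Hs_eq_Sy hp hl1.le, ← ms_eq_mu hp] at h1
  exact h1

theorem sub1 {p : ℝ} (h3 : 3 < p) (h4 : p < 4) {C D : Matrix κ κ ℂ} (h : Strict C D) {r lam : ℝ}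
    (hr : 1 < r) (hl : |lam| * r < 1) :
    cell (ms p C D) r (fun z => (1 + lam * z) ^ ((p : ℂ) - 1)) =
      ((((cfc (fun x : ℝ => x ^ (p - 1)) (C + lam • D) * C).trace.re +
        (cfc (fun x : ℝ => x ^ (p - 1)) (C - lam • D) * C).trace.re) / 2 : ℝ) : ℂ) := by
  have hp := isPair_of_strict h
  have hl1 := abs_lt_one_of hr hl
  have hr0 : 0 < r := by linarith
  obtain ⟨K, hK⟩ := ms_bdd h3 h4 hp
  have e : (p : ℂ) - 1 = ((p - 1 : ℝ) : ℂ) := by push_cast; ring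
  rw [e]
  apply cell_of_hasSum hr hK (a := fun k => GC.bin (p - 1) k * lam ^ k)
    (summable_bin_norm (p - 1) hr0 hl)
    (fun θ => bin_hasSum_complex (p - 1) hr0 hl (norm_cz hr0 θ))
  have h1 := GC.hasSum_SubA (by linarith) h4 h3.ne' hp hl1
  rw [← ms_eq_mu hp] at h1
  exact h1

theorem sub2 {p : ℝ} (h3 : 3 < p) (h4 : p < 4) {C D : Matrix κ κ ℂ} (h : Strict C D) {r lam : ℝ}
    (hr : 1 < r) (hl : |lam| * r < 1) :
    cell (ms p C D) r (fun z => (1 + lam * z) ^ ((p : ℂ) - 1) * z) =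
      ((((cfc (fun x : ℝ => x ^ (p - 1)) (C + lam • D) * D).trace.re -
        (cfc (fun x : ℝ => x ^ (p - 1)) (C - lam • D) * D).trace.re) / 2 : ℝ) : ℂ) := by
  have hp := isPair_of_strict h
  have hl1 := abs_lt_one_of hr hl
  have hr0 : 0 < r := by linarith
  obtain ⟨K, hK⟩ := ms_bdd h3 h4 hp
  have e : (p : ℂ) - 1 = ((p - 1 : ℝ) : ℂ) := by push_cast; ring
  rw [e]
  set b : ℕ → ℝ := fun k => Nat.casesOn k 0 fun k => GC.bin (p - 1) k * lam ^ k with hb
  have hb0 : b 0 = 0 := rfl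
  have hb1 : ∀ k, b (k + 1) = GC.bin (p - 1) k * lam ^ k := fun k => rfl
  apply cell_of_hasSum hr hK (a := b)
  · rw [← summable_nat_add_iff 1]
    refine ((summable_bin_norm (p - 1) hr0 hl).mul_right r).congr fun k => ?_
    rw [hb1, pow_succ]
    ring
  · intro θ
    have h1 := (bin_hasSum_complex (p - 1) hr0 hl (norm_cz hr0 θ)).mul_right (cz r θ)
    have h6 : HasSum (fun k : ℕ => ((b (k + 1) : ℝ) : ℂ) * (cz r θ) ^ (k + 1))
        ((1 + lam * cz r θ) ^ ((p - 1 : ℝ) : ℂ) * cz r θ) := by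
      refine h1.congr_fun fun k => ?_
      rw [hb1, pow_succ]
      ring
    have h5 := (hasSum_nat_add_iff (f := fun k : ℕ => ((b k : ℝ) : ℂ) * (cz r θ) ^ k) 1).1 h6
    rw [Finset.sum_range_one, hb0] at h5
    simpa using h5
  · have h1 := GC.hasSum_SubD (by linarith) h4 h3.ne' hp hl1
    rw [← ms_eq_mu hp] at h1
    have h6 : HasSum (fun k : ℕ => b (k + 1) * ms p C D (k + 1)) (GC.gD p C D lam) := h1
    have h5 := (hasSum_nat_add_iff (f := fun k : ℕ => b k * ms p C D k) 1).1 h6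
    rw [Finset.sum_range_one, hb0, zero_mul, add_zero] at h5
    exact h5

end Pool.Agent.Lib_helper92.GC34
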