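import Pool.Agent.Lib_helper92.GC.RID
import Pool.Agent.Lib_helper27.GC34.TauM

/-!
# Block RID: coefficient form and circle form
-/

open scoped BigOperators ComplexOrder Kronecker MatrixOrder
open MeasureTheory Set Matrix

namespace Pool.Agent.Lib_helper92.GC34

open Pool.Agent.GC34 Pool.Agent.RC

variable {ι κ : Type} [Fintype ι] [DecidableEq ι] [Fintype κ] [DecidableEq κ]

/-- RID in coefficient form -/
theorem rid_coeff {p : ℝ} (h3 : 3 < p) (h4 : p < 4) {C D : Matrix κ κ ℂ} (h : Strict C D)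
    {lam η : ℝ} (hl : |lam| < 1) (hη : |η| < 1) {a : ℕ → ℝ}
    (ha : ∀ x : ℝ, |x| < 1 →
      HasSum (fun k => a k * x ^ k) ((1 + lam * x) ^ (p + 1) / (1 + η * x))) :
    HasSum (fun k => a k * ms p C D k)
      ((Rr p (C + lam • D) (C + η • D) + Rr p (C - lam • D) (C - η • D)) / 2) :=
  GC.rid_coeff_of h3 h4 (fun hF hE => Lib_helper27.GC34.tau_matrix h3 h4 hF hE) h hl hη ha

/-- the coefficients of `(1 + lam c)^(p+1) / (1 + η c)` -/
noncomputable def rc (p lam η : ℝ) : ℕ → ℝ :=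
  GC.PS.conv (fun k => GC.bin (p + 1) k * lam ^ k) (fun k => GC.bin (-1) k * η ^ k)

theorem rid {p : ℝ} (h3 : 3 < p) (h4 : p < 4) {C D : Matrix κ κ ℂ} (h : Strict C D)
    {r lam η : ℝ} (hr : 1 < r) (hl : |lam| * r < 1) (he : |η| * r < 1) :
    cell (ms p C D) r (fun z => (1 + lam * z) ^ ((p : ℂ) + 1) / (1 + η * z)) =
      (((Rr p (C + lam • D) (C + η • D) + Rr p (C - lam • D) (C - η • D)) / 2 : ℝ) : ℂ) := by
  have hp := isPair_of_strict h
  have hl1 := abs_lt_one_of hr hl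
  have he1 := abs_lt_one_of hr he
  have hr0 : 0 < r := by linarith
  obtain ⟨K, hK⟩ := ms_bdd h3 h4 hp
  have hrc : ∀ x : ℝ, |x| < 1 →
      HasSum (fun k => rc p lam η k * x ^ k) ((1 + lam * x) ^ (p + 1) / (1 + η * x)) := by
    intro x hx
    have h1 := ((GC.PS_bin (p + 1) hl1).mul (GC.PS_bin (-1) he1)).has x hx.le
    rw [Real.rpow_neg_one, ← div_eq_mul_inv] at h1
    exact h1
  have hsum := rid_coeff h3 h4 h hl1 he1 hrc
  -- weighted summability
  have w1 : Summable fun k => ‖((GC.bin (p + 1) k * lam ^ k : ℝ) : ℂ) * (r : ℂ) ^ k‖ := by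
    refine (summable_bin_norm (p + 1) hr0 hl).congr fun k => ?_
    rw [norm_mul, norm_pow, Complex.norm_real r, Real.norm_eq_abs, abs_of_pos hr0]
  have w2 : Summable fun k => ‖((GC.bin (-1) k * η ^ k : ℝ) : ℂ) * (r : ℂ) ^ k‖ := by
    refine (summable_bin_norm (-1) hr0 he).congr fun k => ?_
    rw [norm_mul, norm_pow, Complex.norm_real r, Real.norm_eq_abs, abs_of_pos hr0]
  have hconv : ∀ (z : ℂ) (n : ℕ),
      ∑ kl ∈ Finset.HasAntidiagonal.antidiagonal n,
        (((GC.bin (p + 1) kl.1 * lam ^ kl.1 : ℝ) : ℂ) * z ^ kl.1) *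
          (((GC.bin (-1) kl.2 * η ^ kl.2 : ℝ) : ℂ) * z ^ kl.2) =
      ((rc p lam η n : ℝ) : ℂ) * z ^ n := by
    intro z n
    unfold rc GC.PS.conv
    push_cast
    rw [Finset.sum_mul]
    apply Finset.sum_congr rfl
    intro kl hkl
    rw [← Finset.HasAntidiagonal.mem_antidiagonal.1 hkl, pow_add]
    ring
  apply cell_of_hasSum hr hK (a := rc p lam η)
  · have h5 := summable_norm_sum_mul_antidiagonal_of_summable_norm w1 w2
    refine h5.congr fun n => ?_
    rw [hconv, norm_mul, norm_pow, Complex.norm_real r, Real.norm_eq_abs, abs_of_pos hr0]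
  · intro θ
    set z := cz r θ with hz
    have hzr : ‖z‖ = r := norm_cz hr0 θ
    have s1 : Summable fun k => ‖((GC.bin (p + 1) k * lam ^ k : ℝ) : ℂ) * z ^ k‖ := by
      refine (summable_bin_norm (p + 1) hr0 hl).congr fun k => ?_
      rw [norm_mul, norm_pow, hzr]
    have s2 : Summable fun k => ‖((GC.bin (-1) k * η ^ k : ℝ) : ℂ) * z ^ k‖ := by
      refine (summable_bin_norm (-1) hr0 he).congr fun k => ?_
      rw [norm_mul, norm_pow, hzr]
    have h5 := tsum_mul_tsum_eq_tsum_sum_antidiagonal_of_summable_norm s1 s2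
    have h6 := (summable_norm_sum_mul_antidiagonal_of_summable_norm s1 s2).of_norm
    have v1 := bin_hasSum_complex (p + 1) hr0 hl hzr
    have v2 := bin_hasSum_complex (-1) hr0 he hzr
    rw [v1.tsum_eq, v2.tsum_eq] at h5
    have e1 : (1 + (lam : ℂ) * z) ^ ((p + 1 : ℝ) : ℂ) * (1 + (η : ℂ) * z) ^ ((-1 : ℝ) : ℂ) =
        (1 + (lam : ℂ) * z) ^ ((p : ℂ) + 1) / (1 + (η : ℂ) * z) := by
      push_cast
      rw [Complex.cpow_neg_one, ← div_eq_mul_inv]
    rw [e1] at h5
    rw [h5]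
    have h7 := h6.hasSum
    refine h7.congr_fun fun n => ?_
    rw [hconv]
  · exact hsum

end Pool.Agent.Lib_helper92.GC34
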